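import Pool.Agent.W966.Vp.Stm

set_option autoImplicit false

/-!
# Singular matrices are accepted with few multiplications
-/

namespace Pool.Agent.W723.VP

open Pool.Agent.W966.Vg

section

variable {K ι : Type} [Field K] [Fintype ι]

lemma val_congr (f : LF K ι) (x : ι → K) {l : ℕ} {g g' : ℕ → K} (h : ∀ s < l, g s = g' s) :
    f.val x l g = f.val x l g' := by
  unfold LF.val
  congr 1
  exact Finset.sum_congr rfl fun s hs => by rw [h s (Finset.mem_range.mp hs)]

lemma upd_congr {l : ℕ} {g g' : ℕ → K} {v v' : K} (h : ∀ s < l, g s = g' s) (hv : v = v') :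
    ∀ s < l + 1, Function.update g l v s = Function.update g' l v' s := by
  intro s hs
  rcases Nat.lt_succ_iff_lt_or_eq.mp hs with hs | rfl
  · rw [Function.update_of_ne (by omega), Function.update_of_ne (by omega)]
    exact h s hs
  · rw [Function.update_self, Function.update_self, hv]

/-- only the results obtained so far matter -/
lemma acc_imp (x : ι → K) (t : NTree K ι) : ∀ (l : ℕ) (g g' : ℕ → K) (L : ℕ),
    (∀ s < l, g s = g' s) → t.Acc x l g L → t.Acc x l g' L := by
  induction t with
  | accept => intro l g g' L h a; exact a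
  | reject => intro l g g' L h a; exact a
  | mul f k next ih =>
    intro l g g' L h a
    exact ⟨a.1, ih _ _ _ _ (upd_congr h (by rw [val_congr f x h, val_congr k x h])) a.2⟩
  | div f k next ih =>
    intro l g g' L h a
    refine ⟨a.1, ?_, ih _ _ _ _ (upd_congr h (by rw [val_congr f x h, val_congr k x h])) a.2.2⟩
    rw [← val_congr k x h]
    exact a.2.1
  | guess next ih =>
    intro l g g' L h a
    obtain ⟨v, hv⟩ := a
    exact ⟨v, ih _ _ _ _ (upd_congr h rfl) hv⟩
  | test f yes no ih1 ih2 =>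
    intro l g g' L h a
    rcases a with a | a
    · exact Or.inl ⟨by rw [← val_congr f x h]; exact a.1, ih1 _ _ _ _ h a.2⟩
    · exact Or.inr ⟨by rw [← val_congr f x h]; exact a.1, ih2 _ _ _ _ h a.2⟩
  | choose m next ih =>
    intro l g g' L h a
    obtain ⟨i, hi⟩ := a
    exact ⟨i, ih i _ _ _ _ h hi⟩

/-- `n` guesses -/
def guessC (t : NTree K ι) : ℕ → NTree K ι
  | 0 => t
  | n + 1 => .guess (guessC t n)

lemma guessC_acc (x : ι → K) (t : NTree K ι) (L : ℕ) : ∀ (n l : ℕ) (g : ℕ → K),
    (guessC t n).Acc x l g L ↔ ∃ G : ℕ → K, (∀ s < l, G s = g s) ∧ t.Acc x (l + n) G L := by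
  intro n
  induction n with
  | zero =>
    intro l g
    constructor
    · intro h
      exact ⟨g, fun _ _ => rfl, h⟩
    · rintro ⟨G, h1, h2⟩
      exact acc_imp x t _ _ _ _ h1 h2
  | succ n ih =>
    intro l g
    have e : l + (n + 1) = l + 1 + n := by ring
    rw [e]
    simp only [guessC, NTree.Acc]
    constructor
    · rintro ⟨v, hv⟩
      obtain ⟨G, h1, h2⟩ := (ih _ _).1 hv
      refine ⟨G, fun s hs => ?_, h2⟩
      rw [h1 s (by omega), Function.update_of_ne (by omega)]
    · rintro ⟨G, h1, h2⟩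
      refine ⟨G l, (ih _ _).2 ⟨G, fun s hs => ?_, h2⟩⟩
      rcases Nat.lt_succ_iff_lt_or_eq.mp hs with hs | rfl
      · rw [Function.update_of_ne (by omega)]
        exact h1 s hs
      · rw [Function.update_self]

/-- the multiplications `r, …, r + n - 1` -/
def mulC (a b : ℕ → LF K ι) (t : NTree K ι) : ℕ → ℕ → NTree K ι
  | 0, _ => t
  | n + 1, r => .mul (a r) (b r) (mulC a b t n (r + 1))

lemma mulC_acc (a b : ℕ → LF K ι) (t : NTree K ι) (x : ι → K) (G : ℕ → K) :
    ∀ (n r L : ℕ) (g : ℕ → K), n ≤ L → (∀ s < r, g s = G s) →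
      (∀ s, r ≤ s → s < r + n → G s = (a s).val x s G * (b s).val x s G) →
      ((mulC a b t n r).Acc x r g L ↔ t.Acc x (r + n) G (L - n)) := by
  intro n
  induction n with
  | zero =>
    intro r L g _ hg _
    constructor
    · exact acc_imp x t _ _ _ _ hg
    · exact acc_imp x t _ _ _ _ fun s hs => (hg s hs).symm
  | succ n ih =>
    intro r L g hn hg hG
    simp only [mulC, NTree.Acc]
    have h1 : (a r).val x r g = (a r).val x r G := val_congr _ x hg
    have h2 : (b r).val x r g = (b r).val x r G := val_congr _ x hg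
    rw [ih (r + 1) (L - 1) _ (by omega) ?_ (fun s hs1 hs2 => hG s (by omega) (by omega))]
    · have e : r + 1 + n = r + (n + 1) := by ring
      have e2 : L - 1 - n = L - (n + 1) := by omega
      rw [e, e2]
      constructor
      · exact fun h => h.2
      · exact fun h => ⟨by omega, h⟩
    · intro s hs
      rcases Nat.lt_succ_iff_lt_or_eq.mp hs with hs | rfl
      · rw [Function.update_of_ne (by omega)]
        exact hg s hs
      · rw [Function.update_self, h1, h2]
        exact (hG s le_rfl (by omega)).symm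

/-- tests -/
def testC : List (LF K ι) → NTree K ι
  | [] => .accept
  | f :: fs => .test f (testC fs) .reject

lemma testC_acc (x : ι → K) (l : ℕ) (g : ℕ → K) (L : ℕ) (fs : List (LF K ι)) :
    (testC fs).Acc x l g L ↔ ∀ f ∈ fs, f.val x l g = 0 := by
  induction fs with
  | nil => simp [testC, NTree.Acc]
  | cons f fs ih =>
    simp only [testC, NTree.Acc, and_false, or_false, List.forall_mem_cons]
    rw [ih]

end

section

variable {K : Type} [Field K] {m : ℕ}

/-- the position of the entry with number `r` -/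
def ix (m r : ℕ) : Fin (m + 1) × Fin (m + 1) :=
  (Fin.ofNat (m + 1) (r / (m + 1)), Fin.ofNat (m + 1) (r % (m + 1)))

/-- the entry -/
def fa (K : Type) [Field K] (m s : ℕ) : LF K (Fin (m + 1) × Fin (m + 1)) :=
  ⟨0, fun i => if i = ix m (s - (m + 1)) then 1 else 0, fun _ => 0⟩

/-- the coordinate of the vector -/
def fb (K : Type) [Field K] (m s : ℕ) : LF K (Fin (m + 1) × Fin (m + 1)) :=
  ⟨0, fun _ => 0, fun t => if t = (s - (m + 1)) % (m + 1) then 1 else 0⟩

/-- the coordinate minus one -/
def fc (K : Type) [Field K] (m : ℕ) (i : Fin (m + 1)) : LF K (Fin (m + 1) × Fin (m + 1)) :=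
  ⟨-1, fun _ => 0, fun t => if t = i.val then 1 else 0⟩

/-- the coordinate of the product -/
def fr (K : Type) [Field K] (m : ℕ) (k : Fin (m + 1)) : LF K (Fin (m + 1) × Fin (m + 1)) :=
  ⟨0, fun _ => 0, fun t => ∑ j : Fin (m + 1),
    if t = (m + 1) + (k.val * (m + 1) + j.val) then 1 else 0⟩

lemma fa_val (s l : ℕ) (x : Fin (m + 1) × Fin (m + 1) → K) (g : ℕ → K) :
    (fa K m s).val x l g = x (ix m (s - (m + 1))) := by
  simp [fa, LF.val]

lemma fb_val (s l : ℕ) (x : Fin (m + 1) × Fin (m + 1) → K) (g : ℕ → K)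
    (h : (s - (m + 1)) % (m + 1) < l) :
    (fb K m s).val x l g = g ((s - (m + 1)) % (m + 1)) := by
  simp only [fb, LF.val, map_zero, zero_mul, Finset.sum_const_zero, add_zero, zero_add,
    Algebra.algebraMap_self, RingHom.id_apply, ite_mul, one_mul]
  rw [Finset.sum_ite_eq' (Finset.range l) ((s - (m + 1)) % (m + 1)) g,
    if_pos (Finset.mem_range.2 h)]

lemma fc_val (i : Fin (m + 1)) (l : ℕ) (x : Fin (m + 1) × Fin (m + 1) → K) (g : ℕ → K)
    (h : i.val < l) : (fc K m i).val x l g = -1 + g i.val := by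
  simp only [fc, LF.val, zero_mul, Finset.sum_const_zero, add_zero,
    Algebra.algebraMap_self, RingHom.id_apply, ite_mul, one_mul]
  rw [Finset.sum_ite_eq' (Finset.range l) i.val g, if_pos (Finset.mem_range.2 h)]

lemma fr_val (k : Fin (m + 1)) (l : ℕ) (x : Fin (m + 1) × Fin (m + 1) → K) (g : ℕ → K)
    (h : (m + 1) + (m + 1) * (m + 1) ≤ l) :
    (fr K m k).val x l g = ∑ j : Fin (m + 1), g ((m + 1) + (k.val * (m + 1) + j.val)) := by
  simp only [fr, LF.val, map_zero, zero_mul, Finset.sum_const_zero, add_zero, zero_add,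
    Algebra.algebraMap_self, RingHom.id_apply]
  simp only [Finset.sum_mul, ite_mul, one_mul, zero_mul]
  rw [Finset.sum_comm]
  refine Finset.sum_congr rfl fun j _ => ?_
  have h1 : (m + 1) + (k.val * (m + 1) + j.val) < l := by
    have h2 : k.val * (m + 1) + j.val < (m + 1) * (m + 1) := by
      have h3 : k.val + 1 ≤ m + 1 := k.isLt
      have h4 : (k.val + 1) * (m + 1) ≤ (m + 1) * (m + 1) := Nat.mul_le_mul_right _ h3
      have h5 := j.isLt
      nlinarith
    omega
  rw [Finset.sum_ite_eq' (Finset.range l) _ g, if_pos (Finset.mem_range.2 h1)]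

/-- the tree -/
def tr (K : Type) [Field K] (m : ℕ) : NTree K (Fin (m + 1) × Fin (m + 1)) :=
  guessC (.choose m fun i => .test (fc K m i)
    (mulC (fa K m) (fb K m) (testC ((List.finRange (m + 1)).map (fr K m)))
      ((m + 1) * (m + 1)) (m + 1)) .reject) (m + 1)

lemma tr_acc (x : Fin (m + 1) × Fin (m + 1) → K) :
    (tr K m).Accepts x ((m + 1) * (m + 1)) ↔ ∃ (v : ℕ → K) (i : Fin (m + 1)), v i.val = 1 ∧
      ∀ k : Fin (m + 1), ∑ j : Fin (m + 1), x (k, j) * v j.val = 0 := by
  unfold NTree.Accepts tr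
  rw [guessC_acc]
  have key : ∀ G : ℕ → K, ((mulC (fa K m) (fb K m)
      (testC ((List.finRange (m + 1)).map (fr K m)))
      ((m + 1) * (m + 1)) (m + 1)).Acc x (m + 1) G ((m + 1) * (m + 1)) ↔
      ∀ k : Fin (m + 1), ∑ j : Fin (m + 1), x (k, j) * G j.val = 0) := by
    intro G
    obtain ⟨G', hG'⟩ : ∃ G' : ℕ → K, G' = fun s => if s < m + 1 then G s else
      x (ix m (s - (m + 1))) * G ((s - (m + 1)) % (m + 1)) := ⟨_, rfl⟩
    have hlt : ∀ s, s < m + 1 → G' s = G s := fun s hs => by
      rw [hG']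
      simp only [if_pos hs]
    rw [mulC_acc _ _ _ x G' _ _ _ G le_rfl (fun s hs => (hlt s hs).symm) ?_]
    · rw [testC_acc]
      simp only [List.mem_map, List.mem_finRange, true_and, forall_exists_index,
        forall_apply_eq_imp_iff]
      refine forall_congr' fun k => ?_
      rw [fr_val k _ x G' le_rfl]
      have e : ∀ j : Fin (m + 1), G' ((m + 1) + (k.val * (m + 1) + j.val)) =
          x (k, j) * G j.val := by
        intro j
        rw [hG']
        simp only
        rw [if_neg (by omega), Nat.add_sub_cancel_left]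
        have e1 : (k.val * (m + 1) + j.val) % (m + 1) = j.val := by
          rw [Nat.mul_comm, Nat.mul_add_mod, Nat.mod_eq_of_lt j.isLt]
        have e2 : (k.val * (m + 1) + j.val) / (m + 1) = k.val := by
          rw [Nat.mul_comm, Nat.mul_add_div (Nat.succ_pos m), Nat.div_eq_of_lt j.isLt, add_zero]
        unfold ix
        rw [e1, e2]
        congr 2
        apply Prod.ext
        · exact Fin.ext (by simp [Fin.ofNat, Nat.mod_eq_of_lt k.isLt])
        · exact Fin.ext (by simp [Fin.ofNat, Nat.mod_eq_of_lt j.isLt])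
      simp_rw [e]
    · intro s hs1 hs2
      have hmod : (s - (m + 1)) % (m + 1) < m + 1 := Nat.mod_lt _ (Nat.succ_pos m)
      rw [fa_val, fb_val _ _ _ _ (by omega), hlt _ hmod]
      rw [hG']
      simp only
      rw [if_neg (by omega)]
  constructor
  · rintro ⟨G, -, h⟩
    simp only [NTree.Acc, and_false, or_false, zero_add] at h
    obtain ⟨i, h1, h2⟩ := h
    rw [fc_val i _ x G i.isLt] at h1
    refine ⟨G, i, by linear_combination h1, (key G).1 h2⟩
  · rintro ⟨G, i, h1, h2⟩
    refine ⟨G, fun s hs => absurd hs (Nat.not_lt_zero s), ?_⟩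
    simp only [NTree.Acc, and_false, or_false, zero_add]
    refine ⟨i, ?_, (key G).2 h2⟩
    rw [fc_val i _ x G i.isLt, h1]
    ring

end

/-- VP-DET -/
theorem s_det : Pool.Agent.W966.Vp.S_DET := by
  intro K _ n
  cases n with
  | zero =>
    refine ⟨.reject, fun x => ?_⟩
    simp [NTree.Accepts, NTree.Acc]
  | succ m =>
    refine ⟨tr K m, fun x => ?_⟩
    rw [tr_acc, ← Matrix.exists_mulVec_eq_zero_iff]
    constructor
    · rintro ⟨v, i, h1, h2⟩
      refine ⟨fun j => v j.val, ?_, ?_⟩
      · intro h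
        have := congrFun h i
        simp only [Pi.zero_apply] at this
        rw [h1] at this
        exact one_ne_zero this
      · funext k
        exact h2 k
    · rintro ⟨v, hv, h⟩
      obtain ⟨i, hi⟩ : ∃ i, v i ≠ 0 := Function.ne_iff.1 hv
      refine ⟨fun s => if hs : s < m + 1 then (v i)⁻¹ * v ⟨s, hs⟩ else 0, i, ?_, ?_⟩
      · simp only [i.isLt, dite_true]
        exact inv_mul_cancel₀ hi
      · intro k
        have h1 := congrFun h k
        have h2 : ∑ j : Fin (m + 1), x (k, j) * v j = 0 := h1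
        have h3 : ∀ j : Fin (m + 1), x (k, j) *
            (if hs : j.val < m + 1 then (v i)⁻¹ * v ⟨j.val, hs⟩ else 0) =
            (v i)⁻¹ * (x (k, j) * v j) := by
          intro j
          simp only [j.isLt, dite_true]
          ring
        simp_rw [h3]
        rw [← Finset.mul_sum, h2, mul_zero]

end Pool.Agent.W723.VP
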